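import Mathlib

/-! Combinatory logic with the semi-equational conditional is confluent. -/

namespace Pool.Agent.Results.MP_18c441_lc.Confluent

open Relation

/-- applicative terms over variables and the constants `S, K, I, T, F, C` -/
inductive Tm : Type
  | var (n : ℕ) : Tm
  | S : Tm
  | K : Tm
  | I : Tm
  | T : Tm
  | F : Tm
  | C : Tm
  | app (x y : Tm) : Tm

open Tm

/-- one rewrite step in any context; the sixth rule may fire when `E x y` holds -/
inductive Red (E : Tm → Tm → Prop) : Tm → Tm → Prop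
  | rI (x : Tm) : Red E (app I x) x
  | rK (x y : Tm) : Red E (app (app K x) y) x
  | rS (x y z : Tm) : Red E (app (app (app S x) y) z) (app (app x z) (app y z))
  | rT (x y : Tm) : Red E (app (app (app C T) x) y) x
  | rF (x y : Tm) : Red E (app (app (app C F) x) y) y
  | rC (z x y : Tm) : E x y → Red E (app (app (app C z) x) y) x
  | left (x x' y : Tm) : Red E x x' → Red E (app x y) (app x' y)
  | right (x y y' : Tm) : Red E y y' → Red E (app x y) (app x y')

/-- the stratified relations: level `0` is empty, level `n + 1` uses convertibility of level `n` -/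
def Level : ℕ → Tm → Tm → Prop
  | 0 => fun _ _ => False
  | n + 1 => Red (EqvGen (Level n))

/-- the rewrite relation of the conditional system -/
def Step (t u : Tm) : Prop := ∃ n, Level n t u

/-- conversion -/
def Cv : Tm → Tm → Prop := EqvGen (Red Eq)

theorem Red.mono {E E' : Tm → Tm → Prop} (h : ∀ x y, E x y → E' x y) {t u : Tm}
    (hr : Red E t u) : Red E' t u := by
  induction hr with
  | rI x => exact .rI x
  | rK x y => exact .rK x y
  | rS x y z => exact .rS x y z
  | rT x y => exact .rT x y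
  | rF x y => exact .rF x y
  | rC z x y e => exact .rC z x y (h _ _ e)
  | left x x' y _ ih => exact .left _ _ _ ih
  | right x y y' _ ih => exact .right _ _ _ ih

theorem Cv.rf (x : Tm) : Cv x x := EqvGen.refl x
theorem Cv.sy {x y : Tm} (h : Cv x y) : Cv y x := EqvGen.symm _ _ h
theorem Cv.tr {x y z : Tm} (h : Cv x y) (h' : Cv y z) : Cv x z := EqvGen.trans _ _ _ h h'

theorem Cv.cong {x x' y y' : Tm} (h : Cv x x') (h' : Cv y y') : Cv (app x y) (app x' y') := by
  have a : Cv (app x y) (app x' y) := by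
    induction h with
    | rel a b h => exact EqvGen.rel _ _ (.left _ _ _ h)
    | refl a => exact Cv.rf _
    | symm a b _ ih => exact Cv.sy ih
    | trans a b c _ _ i1 i2 => exact Cv.tr i1 i2
  have b : Cv (app x' y) (app x' y') := by
    clear a
    induction h' with
    | rel a b h => exact EqvGen.rel _ _ (.right _ _ _ h)
    | refl a => exact Cv.rf _
    | symm a b _ ih => exact Cv.sy ih
    | trans a b c _ _ i1 i2 => exact Cv.tr i1 i2
  exact a.tr b

theorem red_cv {t u : Tm} (h : Red Cv t u) : Cv t u := by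
  induction h with
  | rI x => exact EqvGen.rel _ _ (.rI x)
  | rK x y => exact EqvGen.rel _ _ (.rK x y)
  | rS x y z => exact EqvGen.rel _ _ (.rS x y z)
  | rT x y => exact EqvGen.rel _ _ (.rT x y)
  | rF x y => exact EqvGen.rel _ _ (.rF x y)
  | rC z x y e => exact ((Cv.rf _).cong e.sy).tr (EqvGen.rel _ _ (.rC z x x rfl))
  | left x x' y _ ih => exact ih.cong (Cv.rf _)
  | right x y y' _ ih => exact (Cv.rf _).cong ih

theorem star_cv {t u : Tm} (h : ReflTransGen (Red Cv) t u) : Cv t u := by
  induction h with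
  | refl => exact Cv.rf _
  | tail _ h ih => exact ih.tr (red_cv h)

theorem step_iff (t u : Tm) : Step t u ↔ Red Cv t u := by
  constructor
  · rintro ⟨n, h⟩
    induction n generalizing t u with
    | zero => exact h.elim
    | succ n ih =>
      refine Red.mono (fun x y e => ?_) h
      induction e with
      | rel a b h => exact red_cv (ih a b h)
      | refl a => exact Cv.rf _
      | symm a b _ ih => exact Cv.sy ih
      | trans a b c _ _ i1 i2 => exact Cv.tr i1 i2
  · intro h
    refine ⟨2, Red.mono (fun x y e => ?_) h⟩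
    induction e with
    | rel a b h => exact EqvGen.rel _ _ (Red.mono (fun x y e => e ▸ EqvGen.refl _) h)
    | refl a => exact EqvGen.refl _
    | symm a b _ ih => exact EqvGen.symm _ _ ih
    | trans a b c _ _ i1 i2 => exact EqvGen.trans _ _ _ i1 i2

/-- evaluation to `T` or `F` of a term applied to a stack -/
inductive Ev : Bool → Tm → List Tm → Prop
  | tt : Ev true T []
  | ff : Ev false F []
  | ap {b x y s} : Ev b x (y :: s) → Ev b (app x y) s
  | eI {b x s} : Ev b x s → Ev b I (x :: s)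
  | eK {b x y s} : Ev b x s → Ev b K (x :: y :: s)
  | eS {b x y z s} : Ev b (app (app x z) (app y z)) s → Ev b S (x :: y :: z :: s)
  | eT {b z x y s} : Ev true z [] → Ev b x s → Ev b C (z :: x :: y :: s)
  | eF {b z x y s} : Ev false z [] → Ev b y s → Ev b C (z :: x :: y :: s)
  | eC {b z x y s} : Cv x y → Ev b x s → Ev b y s → Ev b C (z :: x :: y :: s)

/-- root steps of the unconditional system -/
inductive Root : Tm → Tm → Prop
  | rI (x : Tm) : Root (app I x) x
  | rK (x y : Tm) : Root (app (app K x) y) x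
  | rS (x y z : Tm) : Root (app (app (app S x) y) z) (app (app x z) (app y z))
  | rT (x y : Tm) : Root (app (app (app C T) x) y) x
  | rF (x y : Tm) : Root (app (app (app C F) x) y) y
  | rC (z x : Tm) : Root (app (app (app C z) x) x) x

/-- parallel steps of the unconditional system -/
inductive Par : Tm → Tm → Prop
  | rf (x : Tm) : Par x x
  | root {x y : Tm} : Root x y → Par x y
  | ap {x x' y y' : Tm} : Par x x' → Par y y' → Par (app x y) (app x' y')

theorem par_of_red {x y : Tm} (h : Red Eq x y) : Par x y := by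
  induction h with
  | rI x => exact .root (.rI x)
  | rK x y => exact .root (.rK x y)
  | rS x y z => exact .root (.rS x y z)
  | rT x y => exact .root (.rT x y)
  | rF x y => exact .root (.rF x y)
  | rC z x y e => subst e; exact .root (.rC z x)
  | left x x' y _ ih => exact .ap ih (.rf _)
  | right x y y' _ ih => exact .ap (.rf _) ih

theorem Par.cv {x y : Tm} (h : Par x y) : Cv x y := by
  induction h with
  | rf x => exact Cv.rf _
  | root h =>
    refine EqvGen.rel _ _ ?_
    cases h
    exacts [.rI _, .rK _ _, .rS _ _ _, .rT _ _, .rF _ _, .rC _ _ _ rfl]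
  | ap _ _ i1 i2 => exact i1.cong i2

theorem root_fwd {b : Bool} {x y : Tm} {s : List Tm} (h : Root x y) (e : Ev b x s) :
    Ev b y s := by
  cases h with
  | rI x => cases e with | ap e => cases e with | eI e => exact e
  | rK x y => cases e with | ap e => cases e with | ap e => cases e with | eK e => exact e
  | rS x y z =>
    cases e with | ap e => cases e with | ap e => cases e with | ap e =>
      cases e with | eS e => exact e
  | rT x y =>
    cases e with | ap e => cases e with | ap e => cases e with | ap e =>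
      cases e with
      | eT _ e => exact e
      | eF e _ => cases e
      | eC _ e _ => exact e
  | rF x y =>
    cases e with | ap e => cases e with | ap e => cases e with | ap e =>
      cases e with
      | eT e _ => cases e
      | eF _ e => exact e
      | eC _ _ e => exact e
  | rC z x =>
    cases e with | ap e => cases e with | ap e => cases e with | ap e =>
      cases e with
      | eT _ e => exact e
      | eF _ e => exact e
      | eC _ _ e => exact e

theorem root_bwd {b : Bool} {x y : Tm} {s : List Tm} (h : Root x y) (e : Ev b y s) :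
    Ev b x s := by
  cases h with
  | rI x => exact .ap (.eI e)
  | rK x y => exact .ap (.ap (.eK e))
  | rS x y z => exact .ap (.ap (.ap (.eS e)))
  | rT x y => exact .ap (.ap (.ap (.eT .tt e)))
  | rF x y => exact .ap (.ap (.ap (.eF .ff e)))
  | rC z x => exact .ap (.ap (.ap (.eC (Cv.rf _) e e)))

theorem par_fwd {b : Bool} {x : Tm} {s : List Tm} (e : Ev b x s) :
    ∀ x' s', Par x x' → List.Forall₂ Par s s' → Ev b x' s' := by
  induction e with
  | tt => rintro x' s' (_ | ⟨⟨⟩⟩) ⟨⟩; exact .tt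
  | ff => rintro x' s' (_ | ⟨⟨⟩⟩) ⟨⟩; exact .ff
  | ap _ ih =>
    rintro x' s' (_ | h | ⟨h1, h2⟩) hs
    · exact .ap (ih _ _ (.rf _) (.cons (.rf _) hs))
    · exact root_fwd h (.ap (ih _ _ (.rf _) (.cons (.rf _) hs)))
    · exact .ap (ih _ _ h1 (.cons h2 hs))
  | eI _ ih =>
    rintro x' s' (_ | ⟨⟨⟩⟩) (_ | ⟨h1, hs⟩)
    exact .eI (ih _ _ h1 hs)
  | eK _ ih =>
    rintro x' s' (_ | ⟨⟨⟩⟩) (_ | ⟨h1, _ | ⟨_, hs⟩⟩)
    exact .eK (ih _ _ h1 hs)
  | eS _ ih =>
    rintro x' s' (_ | ⟨⟨⟩⟩) (_ | ⟨h1, _ | ⟨h2, _ | ⟨h3, hs⟩⟩⟩)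
    exact .eS (ih _ _ (.ap (.ap h1 h3) (.ap h2 h3)) hs)
  | eT _ _ i1 i2 =>
    rintro x' s' (_ | ⟨⟨⟩⟩) (_ | ⟨h1, _ | ⟨h2, _ | ⟨_, hs⟩⟩⟩)
    exact .eT (i1 _ _ h1 .nil) (i2 _ _ h2 hs)
  | eF _ _ i1 i2 =>
    rintro x' s' (_ | ⟨⟨⟩⟩) (_ | ⟨h1, _ | ⟨_, _ | ⟨h3, hs⟩⟩⟩)
    exact .eF (i1 _ _ h1 .nil) (i2 _ _ h3 hs)
  | eC c _ _ i1 i2 =>
    rintro x' s' (_ | ⟨⟨⟩⟩) (_ | ⟨h1, _ | ⟨h2, _ | ⟨h3, hs⟩⟩⟩)
    exact .eC ((h2.cv.sy.tr c).tr h3.cv) (i1 _ _ h2 hs) (i2 _ _ h3 hs)

theorem par_bwd {b : Bool} {x' : Tm} {s' : List Tm} (e : Ev b x' s') :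
    ∀ x s, Par x x' → List.Forall₂ Par s s' → Ev b x s := by
  have atom : ∀ {b : Bool} {c : Tm} {s' : List Tm}, (∀ u v, c ≠ app u v) →
      (∀ s, List.Forall₂ Par s s' → Ev b c s) →
      ∀ x s, Par x c → List.Forall₂ Par s s' → Ev b x s := by
    intro b c s' hc h x s hx hs
    cases hx with
    | rf => exact h s hs
    | root hr => exact root_bwd hr (h s hs)
    | ap => exact absurd rfl (hc _ _)
  induction e with
  | tt => exact atom (by simp) (by rintro s ⟨⟩; exact .tt)
  | ff => exact atom (by simp) (by rintro s ⟨⟩; exact .ff)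
  | ap _ ih =>
    rintro x s (_ | h | ⟨h1, h2⟩) hs
    · exact .ap (ih _ _ (.rf _) (.cons (.rf _) hs))
    · exact root_bwd h (.ap (ih _ _ (.rf _) (.cons (.rf _) hs)))
    · exact .ap (ih _ _ h1 (.cons h2 hs))
  | eI _ ih =>
    refine atom (by simp) ?_
    rintro s (_ | ⟨h1, hs⟩)
    exact .eI (ih _ _ h1 hs)
  | eK _ ih =>
    refine atom (by simp) ?_
    rintro s (_ | ⟨h1, _ | ⟨_, hs⟩⟩)
    exact .eK (ih _ _ h1 hs)
  | eS _ ih =>
    refine atom (by simp) ?_
    rintro s (_ | ⟨h1, _ | ⟨h2, _ | ⟨h3, hs⟩⟩⟩)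
    exact .eS (ih _ _ (.ap (.ap h1 h3) (.ap h2 h3)) hs)
  | eT _ _ i1 i2 =>
    refine atom (by simp) ?_
    rintro s (_ | ⟨h1, _ | ⟨h2, _ | ⟨_, hs⟩⟩⟩)
    exact .eT (i1 _ _ h1 .nil) (i2 _ _ h2 hs)
  | eF _ _ i1 i2 =>
    refine atom (by simp) ?_
    rintro s (_ | ⟨h1, _ | ⟨_, _ | ⟨h3, hs⟩⟩⟩)
    exact .eF (i1 _ _ h1 .nil) (i2 _ _ h3 hs)
  | eC c _ _ i1 i2 =>
    refine atom (by simp) ?_
    rintro s (_ | ⟨h1, _ | ⟨h2, _ | ⟨h3, hs⟩⟩⟩)
    exact .eC ((h2.cv.tr c).tr h3.cv.sy) (i1 _ _ h2 hs) (i2 _ _ h3 hs)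

theorem ev_cv {b : Bool} {x y : Tm} (h : Cv x y) : Ev b x [] ↔ Ev b y [] := by
  induction h with
  | rel a c h =>
    exact ⟨fun e => par_fwd e _ _ (par_of_red h) .nil, fun e => par_bwd e _ _ (par_of_red h) .nil⟩
  | refl a => rfl
  | symm a c _ ih => exact ih.symm
  | trans a c d _ _ i1 i2 => exact i1.trans i2

theorem star_app {x x' y y' : Tm} (h : ReflTransGen (Red Cv) x x')
    (h' : ReflTransGen (Red Cv) y y') : ReflTransGen (Red Cv) (app x y) (app x' y') :=
  (h.lift (fun t => app t y) fun _ _ h => .left _ _ _ h).trans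
    (h'.lift (fun t => app x' t) fun _ _ h => .right _ _ _ h)

theorem star_stack {x x' : Tm} (s : List Tm) (h : ReflTransGen (Red Cv) x x') :
    ReflTransGen (Red Cv) (s.foldl app x) (s.foldl app x') := by
  induction s generalizing x x' with
  | nil => exact h
  | cons y s ih => exact ih (star_app h .refl)

theorem ev_sound {b : Bool} {x : Tm} {s : List Tm} (e : Ev b x s) :
    ReflTransGen (Red Cv) (s.foldl app x) (if b then T else F) := by
  induction e with
  | tt => exact .refl
  | ff => exact .refl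
  | ap _ ih => exact ih
  | eI _ ih => exact (star_stack _ (.single (.rI _))).trans ih
  | eK _ ih => exact (star_stack _ (.single (.rK _ _))).trans ih
  | eS _ ih => exact (star_stack _ (.single (.rS _ _ _))).trans ih
  | eT _ _ i1 i2 =>
    exact (star_stack _ ((star_app (star_app (star_app .refl i1) .refl) .refl).tail
      (.rT _ _))).trans i2
  | eF _ _ i1 i2 =>
    exact (star_stack _ ((star_app (star_app (star_app .refl i1) .refl) .refl).tail
      (.rF _ _))).trans i2
  | eC c _ _ i1 _ => exact (star_stack _ (.single (.rC _ _ _ c))).trans i1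

theorem to_T {z : Tm} (h : Cv z T) : ReflTransGen (Red Cv) z T := ev_sound ((ev_cv h).2 .tt)
theorem to_F {z : Tm} (h : Cv z F) : ReflTransGen (Red Cv) z F := ev_sound ((ev_cv h).2 .ff)
theorem T_ne_F : ¬ Cv T F := fun h => by cases (ev_cv h).1 .tt

/-- parallel reduction of the orthogonal auxiliary system -/
inductive Q : Tm → Tm → Prop
  | rf (x : Tm) : Q x x
  | ap {x x' y y' : Tm} : Q x x' → Q y y' → Q (app x y) (app x' y')
  | qI {x x' : Tm} : Q x x' → Q (app I x) x'
  | qK {x x' : Tm} (y : Tm) : Q x x' → Q (app (app K x) y) x'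
  | qS {x x' y y' z z' : Tm} : Q x x' → Q y y' → Q z z' →
      Q (app (app (app S x) y) z) (app (app x' z') (app y' z'))
  | qR {z y y' : Tm} (x : Tm) : Cv z F → Q y y' → Q (app (app (app C z) x) y) y'
  | qL {z x x' y : Tm} : ¬ Cv z F → Cv z T ∨ Cv x y → Q x x' → Q (app (app (app C z) x) y) x'

theorem Q.star {x y : Tm} (h : Q x y) : ReflTransGen (Red Cv) x y := by
  induction h with
  | rf x => exact .refl
  | ap _ _ i1 i2 => exact star_app i1 i2
  | qI _ ih => exact .head (.rI _) ih
  | qK y _ ih => exact .head (.rK _ _) ih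
  | qS _ _ _ i1 i2 i3 => exact .head (.rS _ _ _) (star_app (star_app i1 i3) (star_app i2 i3))
  | qR x c _ ih =>
    exact ((star_app (star_app (star_app .refl (to_F c)) .refl) .refl).tail (.rF _ _)).trans ih
  | qL _ c _ ih =>
    rcases c with c | c
    · exact ((star_app (star_app (star_app .refl (to_T c)) .refl) .refl).tail (.rT _ _)).trans ih
    · exact .head (.rC _ _ _ c) ih

theorem Q.cv {x y : Tm} (h : Q x y) : Cv x y := star_cv h.star

theorem q_of_red {x y : Tm} (h : Red Eq x y) : Q x y := by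
  induction h with
  | rI x => exact .qI (.rf _)
  | rK x y => exact .qK _ (.rf _)
  | rS x y z => exact .qS (.rf _) (.rf _) (.rf _)
  | rT x y => exact .qL T_ne_F (.inl (Cv.rf _)) (.rf _)
  | rF x y => exact .qR _ (Cv.rf _) (.rf _)
  | rC z x y e =>
    subst e
    by_cases h : Cv z F
    · exact .qR _ h (.rf _)
    · exact .qL h (.inr (Cv.rf _)) (.rf _)
  | left x x' y _ ih => exact .ap ih (.rf _)
  | right x y y' _ ih => exact .ap (.rf _) ih

open Classical in
/-- complete development -/
noncomputable def dev : Tm → Tm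
  | app I x => dev x
  | app (app K x) _ => dev x
  | app (app (app S x) y) z => app (app (dev x) (dev z)) (app (dev y) (dev z))
  | app (app (app C z) x) y =>
      if Cv z F then dev y else if Cv z T ∨ Cv x y then dev x
      else app (app (app C (dev z)) (dev x)) (dev y)
  | app x y => app (dev x) (dev y)
  | x => x

theorem inv1 {c x y : Tm} (hc : c = K ∨ c = S ∨ c = C) (h : Q (app c x) y) :
    ∃ x', y = app c x' ∧ Q x x' := by
  rcases hc with rfl | rfl | rfl <;>
  · cases h with
    | rf => exact ⟨_, rfl, .rf _⟩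
    | ap h1 h2 => cases h1; exact ⟨_, rfl, h2⟩

theorem inv2 {c x y z : Tm} (hc : c = S ∨ c = C) (h : Q (app (app c x) y) z) :
    ∃ x' y', z = app (app c x') y' ∧ Q x x' ∧ Q y y' := by
  rcases hc with rfl | rfl <;>
  · cases h with
    | rf => exact ⟨_, _, rfl, .rf _, .rf _⟩
    | ap h1 h2 =>
      obtain ⟨_, rfl, h⟩ := inv1 (by simp) h1
      exact ⟨_, _, rfl, h, h2⟩

theorem inv0 {x y z : Tm} (h : Q (app x y) z) (P : Tm → Prop)
    (h1 : ∀ x' y', Q x x' → Q y y' → P (app x' y'))
    (h2 : x = I → Q y z → P z)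
    (h3 : ∀ u, x = app K u → Q u z → P z)
    (h4 : ∀ u v u' v' y', x = app (app S u) v → Q u u' → Q v v' → Q y y' →
      P (app (app u' y') (app v' y')))
    (h5 : ∀ u v, x = app (app C u) v → Cv u F → Q y z → P z)
    (h6 : ∀ u v, x = app (app C u) v → ¬ Cv u F → Cv u T ∨ Cv v y → Q v z → P z) : P z := by
  cases h with
  | rf => exact h1 _ _ (.rf _) (.rf _)
  | ap a b => exact h1 _ _ a b
  | qI a => exact h2 rfl a
  | qK _ a => exact h3 _ rfl a
  | qS a b c => exact h4 _ _ _ _ _ rfl a b c
  | qR _ a b => exact h5 _ _ rfl a b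
  | qL a b c => exact h6 _ _ rfl a b c

theorem triangle (x : Tm) : ∀ y, Q x y → Q y (dev x) := by
  fun_induction dev x with
  | case1 x ih =>
    intro y h
    refine inv0 h (fun y => Q y _) (fun x' y' a b => ?_) (fun _ a => ih _ a) ?_ ?_ ?_ ?_
    · cases a; exact .qI (ih _ b)
    all_goals simp
  | case2 x v ih =>
    intro y h
    refine inv0 h (fun y => Q y _) (fun x' y' a b => ?_) ?_ (fun u e a => ?_) ?_ ?_ ?_
    · obtain ⟨_, rfl, a2⟩ := inv1 (by simp) a
      exact .qK _ (ih _ a2)
    · simp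
    · cases e; exact ih _ a
    all_goals simp
  | case3 x v z i1 i3 i2 =>
    intro y h
    refine inv0 h (fun y => Q y _) (fun x' y' a b => ?_) ?_ ?_ (fun u v u' v' y' e a b c => ?_)
      ?_ ?_
    · obtain ⟨_, _, rfl, a, a'⟩ := inv2 (by simp) a
      exact .qS (i1 _ a) (i2 _ a') (i3 _ b)
    · simp
    · simp
    · cases e; exact .ap (.ap (i1 _ a) (i3 _ c)) (.ap (i2 _ b) (i3 _ c))
    all_goals simp
  | case4 z x v c ih =>
    intro y h
    refine inv0 h (fun y => Q y _) (fun x' y' a b => ?_) ?_ ?_ ?_ (fun u v e a b => ?_)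
      (fun u v e a b c => ?_)
    · obtain ⟨_, _, rfl, a, a'⟩ := inv2 (by simp) a
      exact .qR _ (a.cv.sy.tr c) (ih _ b)
    · simp
    · simp
    · simp
    · exact ih _ b
    · cases e; exact absurd ‹_› a
  | case5 z x v c c' ih =>
    intro y h
    refine inv0 h (fun y => Q y _) (fun x' y' a b => ?_) ?_ ?_ ?_ (fun u v e a b => ?_)
      (fun u v e a b c => ?_)
    · obtain ⟨_, _, rfl, a, a'⟩ := inv2 (by simp) a
      exact .qL (fun h => c (a.cv.tr h))
        (c'.imp (fun h => a.cv.sy.tr h) fun h => (a'.cv.sy.tr h).tr b.cv) (ih _ a')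
    · simp
    · simp
    · simp
    · cases e; exact absurd a c
    · cases e; exact ih _ c
  | case6 z x v c c' i1 i2 i3 =>
    intro y h
    refine inv0 h (fun y => Q y _) (fun x' y' a b => ?_) ?_ ?_ ?_ (fun u v e a b => ?_)
      (fun u v e a b _ => ?_)
    · obtain ⟨_, _, rfl, a, a'⟩ := inv2 (by simp) a
      exact .ap (.ap (.ap (.rf _) (i1 _ a)) (i2 _ a')) (i3 _ b)
    · simp
    · simp
    · simp
    · cases e; exact absurd a c
    · cases e; exact absurd b c'
  | case7 x v n1 n2 n3 n4 i1 i2 =>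
    intro y h
    exact inv0 h (fun y => Q y _) (fun x' y' a b => .ap (i1 _ a) (i2 _ b))
      (fun e _ => (n1 e).elim) (fun u e _ => (n2 u e).elim)
      (fun u v _ _ _ e _ _ _ => (n3 u v e).elim) (fun u v e _ _ => (n4 u v e).elim)
      (fun u v e _ _ _ => (n4 u v e).elim)
  | case8 x n1 n2 n3 n4 n5 =>
    intro y h
    cases h with
    | rf => exact .rf _
    | _ => exact (n5 _ _ rfl).elim

theorem join_of_cv {x y : Tm} (h : Cv x y) : Join (ReflTransGen Q) x y := by
  have eq := equivalence_join_reflTransGen (r := Q)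
    fun a b c h1 h2 => ⟨dev a, .single (triangle a b h1), .single (triangle a c h2)⟩
  induction h with
  | rel a b h => exact ⟨b, .single (q_of_red h), .refl⟩
  | refl a => exact eq.refl a
  | symm a b _ ih => exact eq.symm ih
  | trans a b c _ _ i1 i2 => exact eq.trans i1 i2

theorem result (t t₁ t₂ : Tm) (h₁ : ReflTransGen Step t t₁) (h₂ : ReflTransGen Step t t₂) :
    ∃ u, ReflTransGen Step t₁ u ∧ ReflTransGen Step t₂ u := by
  have e : Step = Red Cv := by
    funext a b; exact propext (step_iff a b)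
  rw [e] at h₁ h₂ ⊢
  obtain ⟨u, u1, u2⟩ := join_of_cv ((star_cv h₁).sy.tr (star_cv h₂))
  have key : ∀ a b, ReflTransGen Q a b → ReflTransGen (Red Cv) a b := by
    intro a b h
    induction h with
    | refl => exact .refl
    | tail _ h ih => exact ih.trans h.star
  exact ⟨u, key _ _ u1, key _ _ u2⟩

end Pool.Agent.Results.MP_18c441_lc.Confluent
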